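import Pool.Agent.Lib.MP_7d9ca0_co.AsyB

namespace Pool.Agent.Results.MP_7d9ca0_co.Expansion

open Pool.Agent.Lib.MP_7d9ca0_co Polynomial

/-- Complete asymptotic expansion of the number of d-regular S-graphs of diameter four. -/
theorem result : (∀ d : ℕ, Finite (Classes d)) ∧ ∃ p : ℕ → Polynomial ℚ,
    p 0 = 1 ∧ p 1 = -2 * X * (X - 1) ∧
    p 2 = C (1 / 3) * X * (X - 1) * (15 * X ^ 2 - 19 * X + 2) ∧
    (∀ k, (p k).natDegree ≤ 2 * k) ∧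
    ∀ K : ℕ, ∃ c : ℚ, ∀ d : ℕ, 1 ≤ d →
      |(Nat.card (Classes d) : ℚ) * (d.factorial : ℚ) ^ 2 * 4 ^ d / 2 ^ (d ^ 2) -
          ∑ k ∈ Finset.range K, (p k).eval (d : ℚ) / 2 ^ (k * d)| ≤
        c * (d : ℚ) ^ (2 * K) / 2 ^ (K * d) :=
  ⟨fun d => (main d).1, pp, pp0, pp1, pp2, pp_deg, fun K => (expansion K).all⟩

end Pool.Agent.Results.MP_7d9ca0_co.Expansion
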