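import Pool.Agent.Lib.MP_7d9ca0_co.Main

namespace Pool.Agent.Results.MP_7d9ca0_co.RhoFormula

open Pool.Agent.Lib.MP_7d9ca0_co

/-- Closed formula for the number of d-regular S-graphs of diameter four, for every d. -/
theorem result (d : ℕ) : Finite (Classes d) ∧ (Nat.card (Classes d) : ℚ) =
    if d < 2 then 0 else
      (avg d (fun l => avg d fun m => 2 ^ (gsum l m + max 1 (low l m + low m l))) +
        avg d (fun l => 2 ^ ((gsum l l + l.countP Odd) / 2 +
          if l.countP Odd = 0 then 1 else 0))) / 2 :=
  main d

end Pool.Agent.Results.MP_7d9ca0_co.RhoFormula
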